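import Mathlib
import Pool.Agent.Helper150.Cub.Defs
import Pool.Agent.Helper150.Cub.Fool

set_option autoImplicit false

namespace Pool.Agent.Results.MP_21a4ea_an.SobolevCase

open MeasureTheory Pool.Agent.Helper150.Cub

/-- For integer `r ≥ 2` and `α ≡ r` mod 2 the optimal cubature error on `W^r_{1,α}` with arbitrary nodes and
arbitrary weights is at least `c m^{-r} log m`. -/
theorem result : ∀ (𝕜 : Type) [RCLike 𝕜] (r : ℕ), 2 ≤ r → ∀ α : ℝ, (∃ k : ℤ, α = r + 2 * k) →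
    ∃ c : ℝ, 0 < c ∧ ∀ m : ℕ, 1 ≤ m →
      ENNReal.ofReal (c * (m:ℝ) ^ (-(r:ℝ)) * Real.log m) ≤ kappa m (W 𝕜 (r:ℝ) α) := by
  intro 𝕜 _ r hr α hα
  obtain ⟨k, hk⟩ := hα
  obtain ⟨C, hC, hfool⟩ := fooling r hr α k hk
  have hr1 : (1:ℝ) < (r:ℝ) := by exact_mod_cast hr
  refine ⟨C, hC, ?_⟩
  intro m hm
  unfold kappa
  refine le_iInf (fun w => le_iInf (fun ξ => ?_))
  obtain ⟨Ψ, hmeas, ⟨M, hM⟩, hnorm, hzero, hint⟩ := hfool m hm ξ
  -- the function and its casts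
  have hcast : ∀ x, conv (fun x => ((per2 Ψ x : ℝ) : 𝕜)) (fun x => ((F2 r α x : ℝ) : 𝕜)) x
      = ((conv (per2 Ψ) (F2 r α) x : ℝ) : 𝕜) := by
    intro x
    unfold conv avg
    have e1 : ∀ y, ((per2 Ψ (x - y) : ℝ) : 𝕜) * ((F2 r α y : ℝ) : 𝕜) = ((per2 Ψ (x - y) * F2 r α y : ℝ) : 𝕜) := by
      intro y; push_cast; rfl
    simp only [e1]
    rw [integral_ofReal, RCLike.real_smul_eq_coe_mul, smul_eq_mul]
    push_cast
    rfl
  have havg : avg (conv (fun x => ((per2 Ψ x : ℝ) : 𝕜)) (fun x => ((F2 r α x : ℝ) : 𝕜)))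
      = ((∫ z, Ψ z ∂(Pool.Agent.Helper150.Walsh.mu1.prod Pool.Agent.Helper150.Walsh.mu1) : ℝ) : 𝕜) := by
    rw [← avg_conv hr1 α hmeas hM]
    have e2 : conv (fun x => ((per2 Ψ x : ℝ) : 𝕜)) (fun x => ((F2 r α x : ℝ) : 𝕜))
      = fun x => ((conv (per2 Ψ) (F2 r α) x : ℝ) : 𝕜) := funext hcast
    rw [e2]
    unfold avg
    rw [integral_ofReal, RCLike.real_smul_eq_coe_mul, smul_eq_mul]
    push_cast
    rfl
  have hmem : conv (fun x => ((per2 Ψ x : ℝ) : 𝕜)) (fun x => ((F2 r α x : ℝ) : 𝕜)) ∈ W 𝕜 (r:ℝ) α := by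
    refine ⟨fun x => ((per2 Ψ x : ℝ) : 𝕜), ?_, ?_, ?_, rfl⟩
    · intro x y
      have := per2_periodic Ψ x y
      simp only [this.1, this.2, and_self]
    · have h1 : IntegrableOn (per2 Ψ) sq := by
        apply Measure.integrableOn_of_bounded (M := M) sq_finite.ne
        · exact (per2_measurable hmeas).aestronglyMeasurable
        · exact Filter.Eventually.of_forall (fun x => by rw [Real.norm_eq_abs]; exact hM _)
      exact h1.ofReal
    · have e3 : (fun x => ‖((per2 Ψ x : ℝ) : 𝕜)‖) = per2 (fun z => |Ψ z|) := by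
        funext x
        rw [RCLike.norm_ofReal]
        rfl
      rw [e3, avg_per2]
      exact hnorm
  unfold cubErr
  refine le_trans ?_ (le_iSup₂ (conv (fun x => ((per2 Ψ x : ℝ) : 𝕜)) (fun x => ((F2 r α x : ℝ) : 𝕜))) hmem)
  apply ENNReal.ofReal_le_ofReal
  have hsum : ∑ μ, w μ * conv (fun x => ((per2 Ψ x : ℝ) : 𝕜)) (fun x => ((F2 r α x : ℝ) : 𝕜)) (ξ μ) = 0 := by
    apply Finset.sum_eq_zero
    intro μ _
    rw [hcast, hzero μ]
    simp
  rw [hsum, zero_sub, norm_neg, havg, RCLike.norm_ofReal]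
  refine le_trans ?_ (le_abs_self _)
  refine le_trans (le_of_eq ?_) hint
  rw [Real.rpow_neg (by positivity), Real.rpow_natCast]
  field_simp

end Pool.Agent.Results.MP_21a4ea_an.SobolevCase
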